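import Pool.Agent.Helper32.OIP.Goals

set_option autoImplicit false

namespace Pool.Agent.Helper9.OIP

open MeasureTheory Pool.Agent.Helper32.OIP Pool.Agent.Helper58.Orb Filter Topology

lemma ent_tendsto {Ω M : Type} [MeasurableSpace Ω] [Fintype M] (μ : Measure Ω)
    [IsProbabilityMeasure μ] (X : Ω → M) (Y : ℕ → Ω → M)
    (h : Tendsto (fun k => μ.real {ω | Y k ω ≠ X ω}) atTop (𝓝 0)) :
    Tendsto (fun k => Ent μ (Y k)) atTop (𝓝 (Ent μ X)) := by
  unfold Ent
  apply tendsto_finsetSum
  intro m _
  have h1 : Tendsto (fun k => μ.real {ω | Y k ω = m}) atTop (𝓝 (μ.real {ω | X ω = m})) := by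
    rw [tendsto_iff_dist_tendsto_zero]
    refine squeeze_zero (fun _ => dist_nonneg) (fun k => ?_) h
    rw [Real.dist_eq, abs_le]
    have e1 : μ.real {ω | Y k ω = m} ≤ μ.real {ω | X ω = m} + μ.real {ω | Y k ω ≠ X ω} := by
      refine le_trans (measureReal_mono (s₂ := {ω | X ω = m} ∪ {ω | Y k ω ≠ X ω}) ?_
        (measure_ne_top _ _)) (measureReal_union_le _ _)
      intro ω hω
      by_cases hx : Y k ω = X ω
      · left
        have hω' : Y k ω = m := hω
        exact (hx ▸ hω' : X ω = m)
      · right; exact hx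
    have e2 : μ.real {ω | X ω = m} ≤ μ.real {ω | Y k ω = m} + μ.real {ω | Y k ω ≠ X ω} := by
      refine le_trans (measureReal_mono (s₂ := {ω | Y k ω = m} ∪ {ω | Y k ω ≠ X ω}) ?_
        (measure_ne_top _ _)) (measureReal_union_le _ _)
      intro ω hω
      by_cases hx : Y k ω = X ω
      · left
        have hω' : X ω = m := hω
        exact (hx.trans hω' : Y k ω = m)
      · right; exact hx
    constructor <;> linarith
  exact (Real.continuous_negMulLog.tendsto _).comp h1

theorem e8 : GoalE8 := by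
  intro hMA1 hMA4 hE7 A E M _ _ _ _ S D _ T ν _ X hX
  have : IsProbabilityMeasure (pm A ν) :=
    inferInstanceAs (IsProbabilityMeasure (Measure.infinitePi fun _ : A => ν))
  have hpos : ∀ k : ℕ, (0 : ℝ) < 1 / ((k : ℝ) + 1) := fun k => by positivity
  choose W Y hYm hYd hYe using fun k : ℕ => hMA4 A E M ν X hX _ (hpos k)
  have hlim : Tendsto (fun k : ℕ => (1 : ℝ) / ((k : ℝ) + 1)) atTop (𝓝 0) :=
    tendsto_one_div_add_atTop_nhds_zero_nat
  have h0 : Tendsto (fun k => (pm A ν).real {z | Y k z ≠ X z}) atTop (𝓝 0) :=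
    squeeze_zero (fun _ => measureReal_nonneg) hYe hlim
  have hms : ∀ k, MeasurableSet {z | Y k z ≠ X z} := by
    intro k
    have : {z | Y k z ≠ X z} = ⋃ m : M, ({z | X z = m} \ {z | Y k z = m}) := by
      ext z
      constructor
      · intro hz
        exact Set.mem_iUnion.2 ⟨X z, rfl, hz⟩
      · intro hz hzz
        obtain ⟨m, h1, h2⟩ := Set.mem_iUnion.1 hz
        have h1' : X z = m := h1
        exact h2 (hzz.trans h1')
    rw [this]
    exact MeasurableSet.iUnion fun m => (hX m).diff (hYm k m)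
  have h1 := ent_tendsto (pm A ν) X Y h0
  have h2 : ∀ s : D, Tendsto (fun k => Ent (pm A ν) (fun z => (Y k z, Y k (sh (T.dir s) z)))) atTop
      (𝓝 (Ent (pm A ν) (fun z => (X z, X (sh (T.dir s) z))))) := by
    intro s
    apply ent_tendsto
    have hb : Tendsto (fun k => (pm A ν).real {z | Y k z ≠ X z} + (pm A ν).real {z | Y k z ≠ X z})
        atTop (𝓝 0) := by
      have := h0.add h0
      rwa [add_zero] at this
    refine squeeze_zero (fun _ => measureReal_nonneg) (fun k => ?_) hb
    have hmp := hMA1.2.2 A E ν (T.dir s)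
    have hpre : (pm A ν).real (sh (T.dir s) ⁻¹' {z | Y k z ≠ X z}) =
        (pm A ν).real {z | Y k z ≠ X z} := by
      rw [Measure.real, Measure.real, hmp.measure_preimage (hms k).nullMeasurableSet]
    calc (pm A ν).real {z | (Y k z, Y k (sh (T.dir s) z)) ≠ (X z, X (sh (T.dir s) z))}
        ≤ (pm A ν).real ({z | Y k z ≠ X z} ∪ sh (T.dir s) ⁻¹' {z | Y k z ≠ X z}) := by
          refine measureReal_mono ?_ (measure_ne_top _ _)
          intro z hz
          by_cases h : Y k z = X z
          · right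
            intro h'
            apply hz
            rw [h, h']
          · left; exact h
      _ ≤ (pm A ν).real {z | Y k z ≠ X z} + (pm A ν).real (sh (T.dir s) ⁻¹' {z | Y k z ≠ X z}) :=
          measureReal_union_le _ _
      _ = _ := by rw [hpre]
  have h3 : Tendsto (fun k => ∑ s, Ent (pm A ν) (fun z => (Y k z, Y k (sh (T.dir s) z)))) atTop
      (𝓝 (∑ s, Ent (pm A ν) (fun z => (X z, X (sh (T.dir s) z))))) :=
    tendsto_finsetSum _ fun s _ => h2 s
  exact le_of_tendsto_of_tendsto' (h1.const_mul _) h3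
    (fun k => hE7 A E M S D T ν (Y k) (W k) (hYm k) (hYd k))

end Pool.Agent.Helper9.OIP
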